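import Pool.Graph.R_seed8.Results.MP_3028b5_gt.SupportsAndTightness
import Pool.Agent.H66.QR.A

set_option autoImplicit false

/-!
# Valdivia compact spaces that are continuous images of (quasi-)Radon-Nikodym compact spaces

Let `K` be Valdivia and a continuous image of a quasi-Radon-Nikodym compact space `L` (for example
of a Radon-Nikodym or of a scattered compact space). Then all points of `K` have support of size at
most `ℵ₁`, and every Hausdorff continuous image of a closed subspace of `K` has tightness at most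
`ℵ₁` and contains no copy of `[0, ω₂]`. With `L = K` this answers both questions in the negative.
-/

open Cardinal Topology Set
open scoped Ordinal

namespace Pool.Agent.Results.MP_3028b5_gt.ImagesOfRadonNikodym

universe u

/-- `A` is a `Σ`-subset of `K`: for some homeomorphic embedding of `K` into a power of the real
line, `A` consists of the points of `K` with countable support. -/
def IsSigmaSubset {K : Type u} [TopologicalSpace K] (A : Set K) : Prop :=
  ∃ (Γ : Type u) (h : K → Γ → ℝ), IsEmbedding h ∧ A = {x | {γ | h x γ ≠ 0}.Countable}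

/-- `K` is Valdivia: it has a dense `Σ`-subset. -/
def IsValdivia (K : Type u) [TopologicalSpace K] : Prop :=
  ∃ A : Set K, Dense A ∧ IsSigmaSubset A

/-- `d` fragments `K`: every nonempty subset `A` has, for every `ε > 0`, a nonempty relatively
open subset `U ∩ A` whose `d`-diameter is less than `ε`. -/
def Fragments {K : Type u} [TopologicalSpace K] (d : K → K → ℝ) : Prop :=
  ∀ A : Set K, A.Nonempty → ∀ ε : ℝ, 0 < ε → ∃ U : Set K, IsOpen U ∧ (U ∩ A).Nonempty ∧
    ∃ η < ε, ∀ x ∈ U ∩ A, ∀ y ∈ U ∩ A, d x y ≤ η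

/-- `K` is quasi-Radon-Nikodym: it is fragmented by a lower semicontinuous symmetric function
`d ≥ 0` on `K × K` that vanishes exactly on the diagonal. -/
def IsQuasiRadonNikodym (K : Type u) [TopologicalSpace K] : Prop :=
  ∃ d : K → K → ℝ, (∀ x y, 0 ≤ d x y) ∧ (∀ x y, d x y = 0 ↔ x = y) ∧ (∀ x y, d x y = d y x) ∧
    LowerSemicontinuous (fun p : K × K => d p.1 p.2) ∧ Fragments d

/-- `K` is Radon-Nikodym: it is fragmented by a lower semicontinuous metric. -/
def IsRadonNikodym (K : Type u) [TopologicalSpace K] : Prop :=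
  ∃ d : K → K → ℝ, (∀ x y, 0 ≤ d x y) ∧ (∀ x y, d x y = 0 ↔ x = y) ∧ (∀ x y, d x y = d y x) ∧
    (∀ x y z, d x z ≤ d x y + d y z) ∧
    LowerSemicontinuous (fun p : K × K => d p.1 p.2) ∧ Fragments d

/-- `K` is scattered: every nonempty subset has an isolated point. -/
def IsScattered (K : Type u) [TopologicalSpace K] : Prop :=
  ∀ A : Set K, A.Nonempty → ∃ x, ∃ U : Set K, IsOpen U ∧ U ∩ A = {x}

/-- `K` contains a copy of `[0, ω₂]`. -/
def ContainsOmegaTwo (K : Type u) [TopologicalSpace K] : Prop :=
  ∃ f : Set.Iic (Ordinal.omega.{u} 2) → K, IsEmbedding f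

/-- The tightness of `K` is at most `ℵ₁`: every point of the closure of a set `B` lies in the
closure of a subset of `B` of size at most `ℵ₁`. -/
def TightnessLeAlephOne (K : Type u) [TopologicalSpace K] : Prop :=
  ∀ (B : Set K) (q : K), q ∈ closure B → ∃ B' ⊆ B, #B' ≤ ℵ₁ ∧ q ∈ closure B'

theorem quasi_of_rn {K : Type u} [TopologicalSpace K] (h : IsRadonNikodym K) :
    IsQuasiRadonNikodym K := by
  obtain ⟨d, h0, h1, h2, -, h4, h5⟩ := h
  exact ⟨d, h0, h1, h2, h4, h5⟩

theorem rn_of_scattered {K : Type u} [TopologicalSpace K] [T2Space K] (h : IsScattered K) :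
    IsRadonNikodym K := by
  classical
  refine ⟨fun x y => if x = y then 0 else 1, ?_, ?_, ?_, ?_, ?_, ?_⟩
  · intro x y
    dsimp only
    split_ifs <;> norm_num
  · intro x y
    dsimp only
    split_ifs with hxy <;> simp [hxy]
  · intro x y
    simp only [eq_comm]
  · intro x y z
    dsimp only
    by_cases hxy : x = y
    · subst hxy
      simp
    · by_cases hxz : x = z
      · subst hxz
        simp only [if_pos, if_neg hxy]
        split_ifs <;> norm_num
      · simp only [if_neg hxy, if_neg hxz]
        split_ifs <;> norm_num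
  · rw [lowerSemicontinuous_iff_isClosed_preimage]
    intro c
    by_cases hc : 1 ≤ c
    · convert isClosed_univ
      rw [eq_univ_iff_forall]
      intro p
      show (if p.1 = p.2 then (0 : ℝ) else 1) ≤ c
      split_ifs <;> linarith
    · by_cases hc0 : 0 ≤ c
      · convert isClosed_diagonal (X := K)
        ext p
        show (if p.1 = p.2 then (0 : ℝ) else 1) ≤ c ↔ p.1 = p.2
        split_ifs with hp
        · simp [hp, hc0]
        · simp [hp, hc]
      · convert isClosed_empty
        rw [eq_empty_iff_forall_notMem]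
        intro p hp
        have hp' : (if p.1 = p.2 then (0 : ℝ) else 1) ≤ c := hp
        split_ifs at hp' <;> linarith
  · intro A hA ε hε
    obtain ⟨x, U, hU, hx⟩ := h A hA
    refine ⟨U, hU, by rw [hx]; exact singleton_nonempty x, 0, hε, fun y hy z hz => ?_⟩
    rw [hx] at hy hz
    rw [mem_singleton_iff.mp hy, mem_singleton_iff.mp hz]
    simp

theorem main {L K : Type u} [TopologicalSpace L] [CompactSpace L] [TopologicalSpace K] [T2Space K]
    (π : L → K) (hπ : Continuous π) (hs : Function.Surjective π) (hL : IsQuasiRadonNikodym L)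
    (hV : IsValdivia K) :
    (∀ (Γ : Type u) (h : K → Γ → ℝ), IsEmbedding h →
      Dense {x : K | {γ | h x γ ≠ 0}.Countable} → ∀ q : K, #{γ | h q γ ≠ 0} ≤ ℵ₁) ∧
    ∀ F : Set K, IsClosed F → ∀ (M : Type u) [TopologicalSpace M] [T2Space M] (φ : F → M),
      Continuous φ → Function.Surjective φ → TightnessLeAlephOne M ∧ ¬ ContainsOmegaTwo M := by
  have : CompactSpace K := ⟨by
    rw [← hs.range_eq]
    exact isCompact_range hπ⟩
  obtain ⟨d, h0, h1, h2, hlsc, hfr⟩ := hL
  obtain ⟨e, e0, e1, -, elsc, efr⟩ := Pool.Agent.H66.QR.image_dist hπ hs h0 h1 h2 hlsc hfr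
  have hsupp : ∀ (Γ : Type u) (h : K → Γ → ℝ), IsEmbedding h →
      Dense {x : K | {γ | h x γ ≠ 0}.Countable} → ∀ q : K, #{γ | h q γ ≠ 0} ≤ ℵ₁ := by
    intro Γ h hemb hA q
    refine Pool.Agent.Helper787.RNValdivia.card_supp_le hemb hA (d := e) ?_ elsc ?_ q
    · intro x y hxy
      exact lt_of_le_of_ne (e0 x y) (fun e => hxy ((e1 x y).mp e.symm))
    · intro A hA ε hε
      obtain ⟨U, hU, hne, η, hη, hd⟩ := efr A hA ε hε
      exact ⟨U, hU, hne, fun x hx y hy => (hd x hx y hy).trans_lt hη⟩
  refine ⟨hsupp, ?_⟩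
  obtain ⟨A, hA, Γ, h, hemb, rfl⟩ := hV
  have ht : TightnessLeAlephOne K :=
    Pool.Agent.Results.MP_3028b5_gt.SupportsAndTightness.tightness hemb (hsupp Γ h hemb hA)
  intro F hF M _ _ φ hφ hφs
  have htM : TightnessLeAlephOne M := Pool.Agent.H66.QR.tight_image ht F hF hφ hφs
  refine ⟨htM, ?_⟩
  have := Pool.Agent.H66.QR.no_copy htM
  rwa [Cardinal.ord_aleph] at this

theorem no_omega_two {K : Type u} [TopologicalSpace K] [CompactSpace K] [T2Space K]
    (hK : IsRadonNikodym K) (hV : IsValdivia K) : ¬ ContainsOmegaTwo K := by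
  rintro ⟨f, hf⟩
  have h := (main (id : K → K) continuous_id Function.surjective_id (quasi_of_rn hK) hV).2
    univ isClosed_univ K Subtype.val continuous_subtype_val (fun x => ⟨⟨x, mem_univ x⟩, rfl⟩)
  exact h.2 ⟨f, hf⟩

/-- (1) Let `K` be a Hausdorff space that is a continuous image of a quasi-Radon-Nikodym compact
space `L`, and let `K` be Valdivia. Then for every homeomorphic embedding of `K` in a power of the
real line for which the points with countable support are dense, all points of `K` have support of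
size at most `ℵ₁`; and every Hausdorff space that is a continuous image of a closed subspace of `K`
has tightness at most `ℵ₁` and contains no copy of `[0, ω₂]`.
(2) Radon-Nikodym spaces are quasi-Radon-Nikodym, and (3) scattered Hausdorff spaces are
Radon-Nikodym (both immediate).
(4) There is no Radon-Nikodym Valdivia compact space containing a copy of `[0, ω₂]`, (5) in
particular no scattered one. -/
theorem result :
    (∀ (L K : Type u) [TopologicalSpace L] [CompactSpace L] [TopologicalSpace K] [T2Space K]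
      (π : L → K), Continuous π → Function.Surjective π → IsQuasiRadonNikodym L → IsValdivia K →
      (∀ (Γ : Type u) (h : K → Γ → ℝ), IsEmbedding h →
        Dense {x : K | {γ | h x γ ≠ 0}.Countable} → ∀ q : K, #{γ | h q γ ≠ 0} ≤ ℵ₁) ∧
      ∀ F : Set K, IsClosed F → ∀ (M : Type u) [TopologicalSpace M] [T2Space M] (φ : F → M),
        Continuous φ → Function.Surjective φ → TightnessLeAlephOne M ∧ ¬ ContainsOmegaTwo M) ∧
    (∀ (K : Type u) [TopologicalSpace K], IsRadonNikodym K → IsQuasiRadonNikodym K) ∧
    (∀ (K : Type u) [TopologicalSpace K] [T2Space K], IsScattered K → IsRadonNikodym K) ∧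
    (¬ ∃ (K : Type u) (_ : TopologicalSpace K), CompactSpace K ∧ T2Space K ∧
      IsRadonNikodym K ∧ IsValdivia K ∧ ContainsOmegaTwo K) ∧
    (¬ ∃ (K : Type u) (_ : TopologicalSpace K), CompactSpace K ∧ T2Space K ∧
      IsRadonNikodym K ∧ IsValdivia K ∧ ContainsOmegaTwo K ∧ IsScattered K) := by
  refine ⟨?_, ?_, ?_, ?_, ?_⟩
  · intro L K _ _ _ _ π hπ hs hL hV
    exact main π hπ hs hL hV
  · intro K _ h
    exact quasi_of_rn h
  · intro K _ _ h
    exact rn_of_scattered h
  · rintro ⟨K, _, _, _, h1, h2, h3⟩
    exact no_omega_two h1 h2 h3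
  · rintro ⟨K, _, _, _, h1, h2, h3, -⟩
    exact no_omega_two h1 h2 h3

end Pool.Agent.Results.MP_3028b5_gt.ImagesOfRadonNikodym
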